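import Pool.Agent.helper81.WS.Spec

set_option autoImplicit false

open Finset

namespace Pool.Agent.WS

open Module Pointwise

open Pool.Agent.helper85.PG (IsSys rr)

theorem MSS_shift {p : ℕ} [Fact p.Prime] (w : ZMod p → ℝ) (h b : ZMod p) (hh : h ≠ 0) :
    ∑ x : ZMod p, w (x * h - b) = ∑ c : ZMod p, w c := by
  refine Fintype.sum_bijective (fun x : ZMod p => x * h - b) ?_ _ _ fun x => rfl
  constructor
  · intro x y hxy
    have h1 : x * h = y * h := by
      have h2 : x * h - b = y * h - b := hxy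
      linear_combination h2
    exact mul_right_cancel₀ hh h1
  · intro c
    refine ⟨(c + b) * h⁻¹, ?_⟩
    show (c + b) * h⁻¹ * h - b = c
    rw [mul_assoc, inv_mul_cancel₀ hh]
    ring

/-- MSS -/
theorem MSS : MSS_stmt := by
  intro p _ B f w hw
  refine ⟨fun x => ?_, ?_⟩
  · unfold nu
    exact Finset.sum_nonneg fun b _ => Finset.sum_nonneg fun b' _ =>
      mul_nonneg (by positivity) (hw _)
  · unfold nu
    rw [Finset.sum_comm]
    have hW : 0 ≤ ∑ c : ZMod p, w c := Finset.sum_nonneg fun c _ => hw c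
    have h1 : ∀ b ∈ B, ∑ x : ZMod p, ∑ b' ∈ (cf B f b).erase b,
        ((cf B f b).card : ℝ)⁻¹ * w (x * (b' - b) - b) ≤ ∑ c : ZMod p, w c := by
      intro b hb
      rw [Finset.sum_comm]
      have h2 : ∀ b' ∈ (cf B f b).erase b, ∑ x : ZMod p,
          ((cf B f b).card : ℝ)⁻¹ * w (x * (b' - b) - b) =
            ((cf B f b).card : ℝ)⁻¹ * ∑ c : ZMod p, w c := by
        intro b' hb'
        rw [← Finset.mul_sum, MSS_shift w (b' - b) b (sub_ne_zero.2 (Finset.ne_of_mem_erase hb'))]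
      rw [Finset.sum_congr rfl h2, Finset.sum_const, nsmul_eq_mul]
      have hcb : b ∈ cf B f b := Finset.mem_filter.2 ⟨hb, rfl⟩
      have hpos : 0 < ((cf B f b).card : ℝ) := by
        exact_mod_cast Finset.card_pos.2 ⟨b, hcb⟩
      have hle : (((cf B f b).erase b).card : ℝ) ≤ ((cf B f b).card : ℝ) := by
        exact_mod_cast Finset.card_le_card (Finset.erase_subset _ _)
      calc (((cf B f b).erase b).card : ℝ) * (((cf B f b).card : ℝ)⁻¹ * ∑ c : ZMod p, w c)
          ≤ ((cf B f b).card : ℝ) * (((cf B f b).card : ℝ)⁻¹ * ∑ c : ZMod p, w c) :=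
            mul_le_mul_of_nonneg_right hle (mul_nonneg (inv_nonneg.2 hpos.le) hW)
        _ = ∑ c : ZMod p, w c := by
            rw [← mul_assoc, mul_inv_cancel₀ hpos.ne', one_mul]
    calc ∑ b ∈ B, ∑ x : ZMod p, ∑ b' ∈ (cf B f b).erase b,
          ((cf B f b).card : ℝ)⁻¹ * w (x * (b' - b) - b)
        ≤ ∑ b ∈ B, ∑ c : ZMod p, w c := Finset.sum_le_sum h1
      _ = (∑ c : ZMod p, w c) * B.card := by
          rw [Finset.sum_const, nsmul_eq_mul, mul_comm]

end Pool.Agent.WS
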